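import Mathlib

namespace Pool.Agent.H.MP_1b26ca_an
open Function
open scoped commutatorElement

/-- filtered topological group with a rational subgroup -/
structure FG where
  G : Type
  [grp : Group G]
  [top : TopologicalSpace G]
  [tg : IsTopologicalGroup G]
  H : ℕ → Subgroup G
  anti : ∀ i, H (i + 1) ≤ H i
  comm : ∀ i j a b, a ∈ H i → b ∈ H j → ⁅a, b⁆ ∈ H (i + j)
  Γ : Subgroup G
  rat : ∀ i, ∃ K : Set G, IsCompact K ∧ K ⊆ H i ∧ ∀ a ∈ H i, ∃ κ ∈ K, κ⁻¹ * a ∈ Γ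

attribute [instance] FG.grp FG.top FG.tg

namespace FG
variable (F : FG)

lemma mono {i j : ℕ} (h : i ≤ j) : F.H j ≤ F.H i := antitone_nat_of_succ_le F.anti h

lemma conj {i j : ℕ} {a b : F.G} (ha : a ∈ F.H i) (hb : b ∈ F.H j) : a * b * a⁻¹ ∈ F.H j := by
  have := (F.H j).mul_mem (F.mono (Nat.le_add_left j i) (F.comm i j a b ha hb)) hb
  simpa [commutatorElement_def] using this

def boxH (i : ℕ) : Subgroup (F.G × F.G) where
  carrier := {p | p.1 ∈ F.H i ∧ p.1⁻¹ * p.2 ∈ F.H (i + 1)}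
  one_mem' := ⟨one_mem _, by simp⟩
  mul_mem' := by
    rintro ⟨a, b⟩ ⟨c, d⟩ ⟨h1, h2⟩ ⟨h3, h4⟩
    refine ⟨mul_mem h1 h3, ?_⟩
    have := mul_mem (F.conj (inv_mem h3) h2) h4
    simpa [mul_assoc] using this
  inv_mem' := by
    rintro ⟨a, b⟩ ⟨h1, h2⟩
    refine ⟨inv_mem h1, ?_⟩
    have := inv_mem (F.conj h1 h2)
    simpa [mul_assoc] using this

def box : FG where
  G := F.G × F.G
  H := F.boxH
  anti i := fun _ h => ⟨F.anti i h.1, F.anti _ h.2⟩
  comm := by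
    rintro i j ⟨a, b⟩ ⟨c, d⟩ ⟨h1, h2⟩ ⟨h3, h4⟩
    refine ⟨F.comm i j a c h1 h3, ?_⟩
    obtain ⟨u, rfl⟩ : ∃ u, b = a * u := ⟨a⁻¹ * b, by simp⟩
    obtain ⟨v, rfl⟩ : ∃ v, d = c * v := ⟨c⁻¹ * d, by simp⟩
    simp only [inv_mul_cancel_left] at h2 h4
    have e1 : ⁅u, c * v⁆ ∈ F.H (i + j + 1) := by
      have := F.comm _ _ _ _ h2 (mul_mem h3 (F.anti j h4))
      rwa [show i + 1 + j = i + j + 1 by ring] at this
    have e2 : ⁅a, v⁆ ∈ F.H (i + j + 1) := F.comm i (j + 1) _ _ h1 h4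
    have h1' : a ∈ F.H i := h1
    have h3' : c ∈ F.H j := h3
    have e3 := F.conj h1' e1
    have := mul_mem (F.conj (inv_mem (F.comm i j a c h1' h3')) e3) (F.conj h3' e2)
    show ⁅a, c⁆⁻¹ * ⁅a * u, c * v⁆ ∈ _
    convert this using 1
    simp only [commutatorElement_def]
    group
  Γ := F.Γ.prod F.Γ
  rat i := by
    obtain ⟨K, hK, s, e⟩ := F.rat i
    obtain ⟨K', hK', s', e'⟩ := F.rat (i + 1)
    refine ⟨(fun p : F.G × F.G => (p.1, p.1 * p.2)) '' (K ×ˢ K'), (hK.prod hK').image (by fun_prop),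
      ?_, ?_⟩
    · rintro _ ⟨⟨a, b⟩, ⟨h1, h2⟩, rfl⟩
      exact ⟨s h1, by simpa using s' h2⟩
    · rintro ⟨a, b⟩ ⟨h1, h2⟩
      obtain ⟨κ, hκ, g1⟩ := e a h1
      obtain ⟨κ', hκ', g2⟩ := e' _ (F.conj (mul_mem (inv_mem (s hκ)) h1) h2)
      refine ⟨_, ⟨(κ, κ'), ⟨hκ, hκ'⟩, rfl⟩, g1, ?_⟩
      have := mul_mem g2 g1
      show (κ * κ')⁻¹ * b ∈ F.Γ
      convert this using 1
      group

def split (n : ℕ) : ((Fin (n + 1) → Bool) → F.G) →* ((Fin n → Bool) → F.box.G) where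
  toFun c ω := (c (Fin.cons false ω), c (Fin.cons true ω))
  map_one' := rfl
  map_mul' _ _ := rfl

def Cube : (n : ℕ) → (F : FG) → Subgroup ((Fin n → Bool) → F.G)
  | 0, F => (F.H 0).comap (Pi.evalMonoidHom (fun _ => F.G) (fun _ => true))
  | n + 1, F => (Cube n F.box).comap (F.split n)

lemma cube_rat (n : ℕ) : ∀ F : FG, ∃ K : Set ((Fin n → Bool) → F.G), IsCompact K ∧
    K ⊆ Cube n F ∧ ∀ c ∈ Cube n F, ∃ κ ∈ K, ∀ ω, (κ ω)⁻¹ * c ω ∈ F.Γ := by
  induction n with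
  | zero =>
    intro F
    obtain ⟨K, hK, s, e⟩ := F.rat 0
    refine ⟨(fun a _ => a) '' K, hK.image (by fun_prop), ?_, fun c hc => ?_⟩
    · rintro _ ⟨a, ha, rfl⟩
      exact s ha
    · obtain ⟨κ, hκ, h⟩ := e _ hc
      refine ⟨_, ⟨κ, hκ, rfl⟩, fun ω => ?_⟩
      rw [Subsingleton.elim (α := Fin 0 → Bool) ω (fun _ => true)]
      exact h
  | succ n ih =>
    intro F
    obtain ⟨K, hK, s, e⟩ := ih F.box
    let u : ((Fin n → Bool) → F.G × F.G) → (Fin (n + 1) → Bool) → F.G := fun c ω =>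
      bif ω 0 then (c (Fin.tail ω)).2 else (c (Fin.tail ω)).1
    have hu : Continuous u := by
      refine continuous_pi fun ω => ?_
      simp only [u]
      cases ω 0
      · exact continuous_fst.comp (continuous_apply _)
      · exact continuous_snd.comp (continuous_apply _)
    refine ⟨u '' K, hK.image hu, ?_, fun c hc => ?_⟩
    · rintro _ ⟨a, ha, rfl⟩
      exact s ha
    · obtain ⟨κ, hκ, h⟩ := e _ hc
      refine ⟨_, ⟨κ, hκ, rfl⟩, fun ω => ?_⟩
      have := h (Fin.tail ω)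
      rw [← Fin.cons_self_tail ω]
      cases ω 0
      · exact this.1
      · exact this.2

lemma cube_uniq (n : ℕ) : ∀ (F : FG) (c : (Fin n → Bool) → F.G), c ∈ Cube n F →
    (∀ ω, ω ≠ (fun _ => true) → c ω ∈ F.Γ) → ∃ γ ∈ F.Γ, γ⁻¹ * c (fun _ => true) ∈ F.H n := by
  induction n with
  | zero => exact fun F c hc _ => ⟨1, one_mem _, by rw [inv_one, one_mul]; exact hc⟩
  | succ n ih =>
    intro F c hc h
    have e1 : (Fin.cons true (fun _ => true) : Fin (n + 1) → Bool) = fun _ => true :=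
      funext fun i => Fin.cases rfl (fun _ => rfl) i
    have n0 : ∀ ω : Fin n → Bool, (Fin.cons false ω : Fin (n + 1) → Bool) ≠ fun _ => true :=
      fun ω e => Bool.false_ne_true (congrFun e 0)
    obtain ⟨⟨γ1, γ2⟩, ⟨h1, h2⟩, h3, h4⟩ := ih F.box _ hc (fun ω hω => ⟨h _ (n0 ω),
      h _ (fun e => hω (funext fun i => congrFun e i.succ))⟩)
    have h5 : γ1⁻¹ * c (Fin.cons false fun _ => true) ∈ F.Γ := mul_mem (inv_mem h1) (h _ (n0 _))
    refine ⟨γ2 * (γ1⁻¹ * c (Fin.cons false fun _ => true)), mul_mem h2 h5, ?_⟩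
    rw [← e1, mul_inv_rev, mul_assoc]
    exact h4

lemma cube_const (n : ℕ) : ∀ (F : FG) (t : F.G), t ∈ F.H 0 → (fun _ => t) ∈ Cube n F := by
  induction n with
  | zero => exact fun F t ht => ht
  | succ n ih => exact fun F t ht => ih F.box (t, t) ⟨ht, by simp⟩

lemma cube_face (n : ℕ) : ∀ (F : FG) (t : F.G) (l : Fin n), t ∈ F.H 1 →
    (fun ω => bif ω l then t else 1) ∈ Cube n F := by
  induction n with
  | zero => exact fun _ _ l => l.elim0
  | succ n ih =>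
    intro F t l ht
    refine Fin.cases ?_ (fun l => ?_) l
    · exact cube_const n F.box (1, t) ⟨one_mem _, by simpa using ht⟩
    · have := ih F.box (t, t) l ⟨ht, by simp⟩
      show F.split n _ ∈ Cube n F.box
      convert this using 1
      funext ω
      show (bif ω l then t else 1, bif ω l then t else 1) = _
      cases ω l <;> rfl

lemma cube_pow (n : ℕ) (g : F.G) (hg : g ∈ F.H 1) (p : Fin n → Bool → ℕ) :
    (fun ω => g ^ (∑ l, p l (ω l))) ∈ Cube n F := by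
  let P : AddSubmonoid ((Fin n → Bool) → ℕ) :=
    { carrier := {m | (fun ω => g ^ m ω) ∈ Cube n F}
      zero_mem' := by
        have := one_mem (Cube n F)
        show (fun ω => _) ∈ Cube n F
        convert this using 1
        funext ω; simp
      add_mem' := fun {a b} ha hb => by
        have := (Cube n F).mul_mem ha hb
        show (fun ω => _) ∈ Cube n F
        convert this using 1
        funext ω; simp [pow_add] }
  have : (∑ l, fun ω : Fin n → Bool => p l (ω l)) ∈ P := by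
    refine sum_mem fun l _ => ?_
    have := mul_mem (cube_const n F (g ^ p l false) (pow_mem (F.anti 0 hg) _))
      (cube_face n F ((g ^ p l false)⁻¹ * g ^ p l true) l
        (mul_mem (inv_mem (pow_mem hg _)) (pow_mem hg _)))
    show (fun ω => _) ∈ Cube n F
    convert this using 1
    funext ω
    simp only [Pi.mul_apply]
    cases ω l <;> simp
  have e : (fun ω => g ^ (∑ l, p l (ω l))) =
      fun ω => g ^ (∑ l, fun ω : Fin n → Bool => p l (ω l)) ω := by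
    funext ω; simp
  rw [e]
  exact this

theorem cube_prop (n : ℕ) (hn : F.H n ≤ F.Γ) {X : Type} [TopologicalSpace X] [T2Space X]
    (π : F.G → X) (hπ : Continuous π) (hΓ : ∀ a b, π a = π b ↔ a⁻¹ * b ∈ F.Γ)
    (O : Set (X × X)) (hO : IsOpen O) (hd : ∀ x, (x, x) ∈ O) :
    ∃ (C : Type) (_ : Finite C) (col : X → C), ∀ c ∈ Cube n F, ∀ c' ∈ Cube n F,
      (∀ ω, ω ≠ (fun _ => true) → col (π (c ω)) = col (π (c' ω))) →
      (π (c fun _ => true), π (c' fun _ => true)) ∈ O := by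
  obtain ⟨K, hK, s, e⟩ := cube_rat n F
  let T : Set (((Fin n → Bool) → F.G) × ((Fin n → Bool) → F.G)) :=
    (K ×ˢ K) ∩ (fun p => (π (p.1 fun _ => true), π (p.2 fun _ => true))) ⁻¹' Oᶜ
  have hT : IsCompact T := (hK.prod hK).inter_right (hO.isClosed_compl.preimage (by fun_prop))
  have sep : ∀ p : T, ∃ (ω : Fin n → Bool) (U V : Set X), ω ≠ (fun _ => true) ∧ IsOpen U ∧
      IsOpen V ∧ π (p.1.1 ω) ∈ U ∧ π (p.1.2 ω) ∈ V ∧ Disjoint U V := by
    rintro ⟨⟨c, c'⟩, ⟨h1, h2⟩, h3⟩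
    by_contra hc
    have : ∀ ω, ω ≠ (fun _ => true) → π (c ω) = π (c' ω) := by
      intro ω hω
      by_contra hne
      obtain ⟨U, V, hU, hV, a, b, d⟩ := t2_separation hne
      exact hc ⟨ω, U, V, hω, hU, hV, a, b, d⟩
    obtain ⟨γ, hγ, h⟩ := cube_uniq n F (c⁻¹ * c') (mul_mem (inv_mem (s h1)) (s h2))
      (fun ω hω => (hΓ _ _).1 (this ω hω))
    have h4 : π (c fun _ => true) = π (c' fun _ => true) :=
      (hΓ _ _).2 (by simpa using mul_mem hγ (hn h))
    exact h3 (show (π (c fun _ => true), π (c' fun _ => true)) ∈ O from h4 ▸ hd _)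
  choose ω U V hω hU hV a b d using sep
  obtain ⟨t, ht⟩ := hT.elim_finite_subcover
    (fun p : T => {q | π (q.1 (ω p)) ∈ U p ∧ π (q.2 (ω p)) ∈ V p})
    (fun p => ((hU p).preimage (by fun_prop)).inter ((hV p).preimage (by fun_prop)))
    (fun q hq => Set.mem_iUnion.2 ⟨⟨q, hq⟩, a _, b _⟩)
  refine ⟨t → Prop, inferInstance, fun x p => x ∈ U p.1, fun c hc c' hc' h => ?_⟩
  obtain ⟨κ, hκ, e1⟩ := e c hc
  obtain ⟨κ', hκ', e2⟩ := e c' hc'
  have e1' := fun ω => (hΓ _ _).2 (e1 ω)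
  have e2' := fun ω => (hΓ _ _).2 (e2 ω)
  rw [← e1', ← e2']
  by_contra hn
  obtain ⟨p, hp, h1, h2⟩ := Set.mem_iUnion₂.1 (ht (show (κ, κ') ∈ T from ⟨⟨hκ, hκ'⟩, hn⟩))
  have := congrFun (h _ (hω p)) ⟨p, hp⟩
  simp only [← e1', ← e2'] at this
  exact Set.disjoint_left.1 (d p) (this ▸ h1) h2

end FG

end Pool.Agent.H.MP_1b26ca_an
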