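import Pool.Agent.H.MP_1b26ca_an.A

namespace Pool.Agent.H.MP_1b26ca_an
open Function Topology Filter
open scoped commutatorElement Pointwise

section small
variable {W : Type} [CommGroup W] [TopologicalSpace W] [IsTopologicalGroup W]

def Small (Λ T : Subgroup W) : Prop := ∃ C : Set W, IsCompact C ∧ ∀ w ∈ T, ∃ c ∈ C, c⁻¹ * w ∈ Λ

omit [IsTopologicalGroup W] in
lemma Small.mono {Λ T T' : Subgroup W} (h : Small Λ T') (l : T ≤ T') : Small Λ T := by
  obtain ⟨C, hC, e⟩ := h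
  exact ⟨C, hC, fun w hw => e w (l hw)⟩

lemma Small.trans {Λ V T : Subgroup W} (h : Small V T) (h' : Small Λ V) : Small Λ T := by
  obtain ⟨C, hC, e⟩ := h
  obtain ⟨C', hC', e'⟩ := h'
  refine ⟨C * C', hC.mul hC', fun w hw => ?_⟩
  obtain ⟨c, hc, h1⟩ := e w hw
  obtain ⟨c', hc', h2⟩ := e' _ h1
  exact ⟨c * c', Set.mul_mem_mul hc hc', by rwa [mul_inv_rev, mul_assoc]⟩

lemma Small.sup {Λ T T' : Subgroup W} (h : Small Λ T) (h' : Small Λ T') : Small Λ (T ⊔ T') := by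
  obtain ⟨C, hC, e⟩ := h
  obtain ⟨C', hC', e'⟩ := h'
  refine ⟨C * C', hC.mul hC', fun w hw => ?_⟩
  obtain ⟨y, hy, z, hz, rfl⟩ := Subgroup.mem_sup.1 hw
  obtain ⟨c, hc, h1⟩ := e y hy
  obtain ⟨c', hc', h2⟩ := e' z hz
  refine ⟨c * c', Set.mul_mem_mul hc hc', ?_⟩
  rw [mul_inv, mul_mul_mul_comm]
  exact mul_mem h1 h2

lemma small_biSup {Λ : Subgroup W} {ι : Type} (T : ι → Subgroup W) {s : Set ι} (hs : s.Finite)
    (h : ∀ i ∈ s, Small Λ (T i)) : Small Λ (⨆ i ∈ s, T i) := by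
  induction s, hs using Set.Finite.induction_on with
  | empty => exact ⟨{1}, isCompact_singleton, fun w hw => ⟨1, rfl, by
      simp at hw; simp [hw]⟩⟩
  | @insert a s _ _ ih =>
    rw [iSup_insert]
    exact (h a (Set.mem_insert _ _)).sup (ih fun i hi => h i (Set.mem_insert_of_mem _ hi))

lemma small_closure [LocallyCompactSpace W] (T : Subgroup W) : Small T T.topologicalClosure := by
  obtain ⟨U, hU, h1⟩ := exists_compact_mem_nhds (1 : W)
  refine ⟨U, hU, fun w hw => ?_⟩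
  have : (fun t => w * t⁻¹) ⁻¹' U ∈ 𝓝 w :=
    ContinuousAt.preimage_mem_nhds (by fun_prop) (by simpa using h1)
  obtain ⟨t, h2, h3⟩ := mem_closure_iff_nhds.1 hw _ this
  exact ⟨_, h2, by simpa using h3⟩

end small

theorem bil {A B W : Type} [Group A] [TopologicalSpace A] [IsTopologicalGroup A]
    [Group B] [TopologicalSpace B] [CommGroup W] [TopologicalSpace W] [IsTopologicalGroup W]
    [LocallyCompactSpace W] (b : A →* B →* W) (hb : Continuous fun p : A × B => b p.1 p.2)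
    (KA : Set A) (hKA : IsCompact KA) (SA : Set A) (hSA : SA.Finite)
    (hA : ∀ a, ∃ κ ∈ KA, ∃ l ∈ Subgroup.closure SA, b a = b κ * b l)
    (KB : Set B) (hKB : IsCompact KB) (SB : Set B) (hSB : SB.Finite)
    (hB : ∀ y, ∃ κ ∈ KB, ∃ l ∈ Subgroup.closure SB, y = κ * l)
    (D : Subgroup B) (hD : ∀ m : ℕ, 1 ≤ m → D ≤ Subgroup.closure (Set.range fun y : B => y ^ m))
    (g : B) (hg : ∀ T : Subgroup B, D ≤ T → g ∈ T → T = ⊤) :
    ∃ V : Subgroup W, IsClosed (V : Set W) ∧ (∀ a y, b a y ∈ V) ∧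
      Small (Subgroup.closure (Set.image2 (fun s t => b s t) SA SB)) V := by
  set Λ := Subgroup.closure (Set.image2 (fun s t => b s t) SA SB)
  have hΛ : ∀ l ∈ Subgroup.closure SA, ∀ l' ∈ Subgroup.closure SB, b l l' ∈ Λ := by
    intro l hl l' hl'
    have h1 : ∀ s ∈ SA, b s l' ∈ Λ := fun s hs =>
      (Subgroup.closure_le (Λ.comap (b s))).2
        (fun t ht => Subgroup.subset_closure ⟨s, hs, t, ht, rfl⟩) hl'
    exact (Subgroup.closure_le (Λ.comap (b.flip l'))).2 h1 hl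
  have s1 : ∀ (V : Subgroup W) (t : B), (∀ l ∈ Subgroup.closure SA, b l t ∈ V) →
      Small V (b.flip t).range := by
    intro V t h
    refine ⟨(fun a => b a t) '' KA, hKA.image (hb.comp (Continuous.prodMk_left t)), ?_⟩
    rintro _ ⟨a, rfl⟩
    obtain ⟨κ, hκ, l, hl, e⟩ := hA a
    refine ⟨_, ⟨κ, hκ, rfl⟩, ?_⟩
    simpa [e] using h l hl
  have s2 : ∀ s ∈ SA, Small Λ (b s).range := by
    intro s hs
    refine ⟨b s '' KB, hKB.image (hb.comp (Continuous.prodMk_right s)), ?_⟩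
    rintro _ ⟨y, rfl⟩
    obtain ⟨κ, hκ, l, hl, rfl⟩ := hB y
    refine ⟨_, ⟨κ, hκ, rfl⟩, ?_⟩
    simpa using hΛ s (Subgroup.subset_closure hs) l hl
  let V0 := (⨆ t ∈ SB, (b.flip t).range) ⊔ ⨆ s ∈ SA, (b s).range
  let V := V0.topologicalClosure
  have sV : Small Λ V := (small_closure V0).trans ((small_biSup _ hSB (fun t ht =>
    s1 Λ t (fun l hl => hΛ l hl t (Subgroup.subset_closure ht)))).sup (small_biSup _ hSA s2))
  have hV1 : ∀ a, ∀ l ∈ Subgroup.closure SB, b a l ∈ V := fun a l hl =>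
    (Subgroup.closure_le (V.comap (b a))).2 (fun t ht => V0.le_topologicalClosure
      (Subgroup.mem_sup_left ((le_biSup (fun t => (b.flip t).range) ht) ⟨a, rfl⟩))) hl
  have hV2 : ∀ y, ∀ l ∈ Subgroup.closure SA, b l y ∈ V := fun y l hl =>
    (Subgroup.closure_le (V.comap (b.flip y))).2 (fun s hs => V0.le_topologicalClosure
      (Subgroup.mem_sup_right ((le_biSup (fun s => (b s).range) hs) ⟨y, rfl⟩))) hl
  have hV3 : ∀ x, ∀ y ∈ D, b x y ∈ V := by
    intro x y hy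
    have hc : IsClosed (V : Set W) := V0.isClosed_topologicalClosure
    rw [← SetLike.mem_coe, ← hc.closure_eq, mem_closure_iff_nhds]
    intro U hU
    have h1 : ∀ᶠ u in 𝓝 (1 : A), ∀ κ ∈ KB, b x y * (b u κ)⁻¹ ∈ U := by
      refine hKB.eventually_forall_of_forall_eventually (fun κ _ => ?_)
      exact ContinuousAt.preimage_mem_nhds (f := fun z : A × B => b x y * (b z.1 z.2)⁻¹)
        (continuous_const.mul hb.inv).continuousAt (by simpa using hU)
    choose κ hκ l hl e using fun n : ℕ => hA (x ^ n)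
    obtain ⟨c, -, hc⟩ := hKA.exists_mapClusterPt_of_frequently (l := atTop) (f := κ)
      (Eventually.of_forall hκ).frequently
    have h2 : ∀ᶠ p in 𝓝 (c, c), ∀ κ ∈ KB, b x y * (b (p.1⁻¹ * p.2) κ)⁻¹ ∈ U :=
      (show Tendsto (fun p : A × A => p.1⁻¹ * p.2) (𝓝 (c, c)) (𝓝 1) from
        Continuous.tendsto' (by fun_prop) _ _ (by simp)).eventually h1
    rw [nhds_prod_eq] at h2
    obtain ⟨N, hN, h3⟩ := (eventually_prod_self_iff
      (r := fun p q => ∀ κ ∈ KB, b x y * (b (p⁻¹ * q) κ)⁻¹ ∈ U)).1 h2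
    have h4 := hc.frequently hN
    obtain ⟨n, hn⟩ := h4.exists
    obtain ⟨n', hn', h5⟩ := (frequently_atTop.1 h4) (n + 1)
    obtain ⟨m, rfl⟩ : ∃ m, n' = n + m := ⟨n' - n, by omega⟩
    have h6 : ∃ y', b x y = b (x ^ m) y' := by
      refine Subgroup.closure_induction (p := fun y _ => ∃ y', b x y = b (x ^ m) y') ?_ ?_ ?_ ?_
        (hD m (by omega) hy)
      · rintro _ ⟨z, rfl⟩
        exact ⟨z, by simp⟩
      · exact ⟨1, by simp⟩
      · rintro y1 y2 - - ⟨z1, e1⟩ ⟨z2, e2⟩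
        exact ⟨z1 * z2, by rw [map_mul, map_mul, e1, e2]⟩
      · rintro y1 - ⟨z1, e1⟩
        exact ⟨z1⁻¹, by rw [map_inv, map_inv, e1]⟩
    obtain ⟨y', e'⟩ := h6
    obtain ⟨k, hk, l', hl', rfl⟩ := hB y'
    refine ⟨_, h3 _ hn _ h5 k hk, ?_⟩
    have e1 : b (x ^ m) = b ((κ n)⁻¹ * κ (n + m)) * b ((l n)⁻¹ * l (n + m)) := by
      have : x ^ m = (x ^ n)⁻¹ * x ^ (n + m) := by group
      rw [this, map_mul, map_inv, e, e, map_mul, map_mul, map_inv, map_inv, mul_inv,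
        mul_mul_mul_comm]
    have := mul_mem (hV1 ((κ n)⁻¹ * κ (n + m)) l' hl')
      (hV2 (k * l') _ (mul_mem (inv_mem (hl n)) (hl (n + m))))
    rw [SetLike.mem_coe, e', e1, MonoidHom.mul_apply, map_mul (b ((κ n)⁻¹ * κ (n + m)))]
    convert this using 1
    rw [mul_assoc (b _ k), mul_inv_cancel_comm]
  let R := (b.flip g).range ⊔ V
  refine ⟨R.topologicalClosure, R.isClosed_topologicalClosure, fun a y => ?_,
    (small_closure R).trans (((s1 V g (hV2 g)).trans sV).sup sV)⟩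
  apply R.le_topologicalClosure
  have := hg (R.comap (b a)) (fun y hy => Subgroup.mem_sup_right (hV3 a y hy))
    (Subgroup.mem_sup_left ⟨a, rfl⟩)
  exact (this ▸ Subgroup.mem_top y : y ∈ R.comap (b a))

end Pool.Agent.H.MP_1b26ca_an
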