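import Pool.Agent.H.MP_1b26ca_an.C

namespace Pool.Agent.H.MP_1b26ca_an
open Function Topology Filter
open scoped Manifold ContDiff

variable {E : Type} [NormedAddCommGroup E] [NormedSpace ℝ E] {G : Type} [Group G]
  [TopologicalSpace G] [ChartedSpace E G] [LieGroup 𝓘(ℝ, E) ∞ G]

def HD (f : G → G) (A : E →L[ℝ] E) : Prop := HasMFDerivAt 𝓘(ℝ, E) 𝓘(ℝ, E) f 1 A

lemma deriv_pow (m : ℕ) : HD (fun y : G => y ^ m) ((m : ℝ) • ContinuousLinearMap.id ℝ E) := by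
  obtain ⟨L, hL⟩ : ∃ L : E × E →L[ℝ] E, HasMFDerivAt (𝓘(ℝ, E).prod 𝓘(ℝ, E)) 𝓘(ℝ, E)
    (fun p : G × G => p.1 * p.2) (1, 1) L :=
    ⟨_, (((contMDiff_mul 𝓘(ℝ, E) ∞).mdifferentiable (by simp)) (1, 1)).hasMFDerivAt⟩
  have key : ∀ (f g : G → G) (A B : E →L[ℝ] E), f 1 = 1 → g 1 = 1 →
      HD f A → HD g B → HD (fun y => f y * g y) (L.comp (A.prod B)) := by
    intro f g A B h1 h2 hf hg
    have h3 := HasMFDerivAt.prodMk hf hg
    have hL' : HasMFDerivAt (𝓘(ℝ, E).prod 𝓘(ℝ, E)) 𝓘(ℝ, E)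
      (fun p : G × G => p.1 * p.2) (f 1, g 1) L := by rw [h1, h2]; exact hL
    exact HasMFDerivAt.comp (1 : G) (f := fun y => (f y, g y)) hL' h3
  have hid : HD (fun y : G => y) (ContinuousLinearMap.id ℝ E) := hasMFDerivAt_id _
  have hc : HD (fun _ : G => 1) (0 : E →L[ℝ] E) := hasMFDerivAt_const _ _
  have e1 : (L.comp ((ContinuousLinearMap.id ℝ E).prod 0) : E →L[ℝ] E) =
      ContinuousLinearMap.id ℝ E := by
    have := key _ _ _ _ rfl rfl hid hc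
    simp only [mul_one] at this
    exact hasMFDerivAt_unique this hid
  have e2 : (L.comp ((0 : E →L[ℝ] E).prod (ContinuousLinearMap.id ℝ E)) : E →L[ℝ] E) =
      ContinuousLinearMap.id ℝ E := by
    have := key _ _ _ _ rfl rfl hc hid
    simp only [one_mul] at this
    exact hasMFDerivAt_unique this hid
  induction m with
  | zero => simpa using hc
  | succ m ih =>
    have := key _ _ _ _ (one_pow m) rfl ih hid
    simp only [pow_succ]
    suffices h : ((m + 1 : ℕ) : ℝ) • ContinuousLinearMap.id ℝ E =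
      L.comp (((m : ℝ) • ContinuousLinearMap.id ℝ E).prod (ContinuousLinearMap.id ℝ E)) by
      rw [h]; exact this
    ext v
    have a1 : L ((m : ℝ) • v, 0) = (m : ℝ) • v := congrArg (fun T : E →L[ℝ] E => T _) e1
    have a2 : L (0, v) = v := congrArg (fun T : E →L[ℝ] E => T _) e2
    show ((m + 1 : ℕ) : ℝ) • v = L ((m : ℝ) • v, v)
    have : ((m : ℝ) • v, v) = ((m : ℝ) • v, (0 : E)) + (0, v) := by simp
    rw [this, map_add, a1, a2]
    simp [add_smul]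

lemma lie_pow [CompleteSpace E] (m : ℕ) (hm : 1 ≤ m) (U : Set G) (hU : U ∈ 𝓝 (1 : G)) :
    (fun y => y ^ m) '' U ∈ 𝓝 (1 : G) := by
  have h1 := (deriv_pow (E := E) (G := G) m)
  have h2 := (contMDiffAt_iff.1 ((contMDiff_pow (I := 𝓘(ℝ, E)) (n := ∞) (G := G) m) 1)).2
  have h3 := h1.2
  simp only [modelWithCornersSelf_coe, Set.range_id, hasFDerivWithinAt_univ,
    contDiffWithinAt_univ, writtenInExtChartAt, one_pow] at h2 h3
  have h4 := (h2.hasStrictFDerivAt' h3 (by simp)).map_nhds_eq_of_surj (by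
    rw [LinearMap.range_eq_top]
    intro v
    refine ⟨(m : ℝ)⁻¹ • v, ?_⟩
    have : (m : ℝ) ≠ 0 := by positivity
    show (m : ℝ) • (m : ℝ)⁻¹ • v = v
    rw [smul_inv_smul₀ this])
  have hs := extChartAt_source_mem_nhds (I := 𝓘(ℝ, E)) (1 : G)
  have h5 : U ∩ (fun y => y ^ m) ⁻¹' (extChartAt 𝓘(ℝ, E) (1 : G)).source ∈ 𝓝 (1 : G) :=
    inter_mem hU (h1.1.preimage_mem_nhds (by simpa only [one_pow] using hs))
  have h6 := (continuousAt_extChartAt_symm (I := 𝓘(ℝ, E)) (1 : G)).preimage_mem_nhds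
    (by rwa [extChartAt_to_inv])
  have h7 := image_mem_map (m := extChartAt 𝓘(ℝ, E) (1 : G) ∘ (fun y : G => y ^ m) ∘
    (extChartAt 𝓘(ℝ, E) (1 : G)).symm) h6
  rw [h4] at h7
  simp only [comp_apply, extChartAt_to_inv, one_pow] at h7
  refine mem_of_superset (inter_mem hs
    ((continuousAt_extChartAt (I := 𝓘(ℝ, E)) (1 : G)).preimage_mem_nhds h7)) ?_
  rintro y ⟨hy, v, ⟨hv1, hv2⟩, e⟩
  exact ⟨_, hv1, (extChartAt 𝓘(ℝ, E) (1 : G)).injOn hv2 hy e⟩

end Pool.Agent.H.MP_1b26ca_an
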