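import Mathlib

namespace Pool.Agent.H.MP_1b26ca_an
open scoped Manifold ContDiff

/-- A `k`-step nilsystem: a (Hausdorff, second countable, finite-dimensional real) Lie group `G`
that is nilpotent of class at most `k`, a discrete cocompact subgroup `Γ`, and `g ∈ G`. -/
structure NilSys (k : ℕ) where
  E : Type
  [nE : NormedAddCommGroup E]
  [sE : NormedSpace ℝ E]
  [fE : FiniteDimensional ℝ E]
  G : Type
  [grp : Group G]
  [top : TopologicalSpace G]
  [t2 : T2Space G]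
  [sc : SecondCountableTopology G]
  [cs : ChartedSpace E G]
  [lie : LieGroup 𝓘(ℝ, E) ∞ G]
  nil : (⊤ : Subgroup G).lowerCentralSeries k = ⊥
  Γ : Subgroup G
  disc : DiscreteTopology Γ
  cpt : CompactSpace (G ⧸ Γ)
  g : G

attribute [instance] NilSys.grp NilSys.top

/-- The nilmanifold `G / Γ`. -/
abbrev NilSys.X {k : ℕ} (S : NilSys k) : Type := S.G ⧸ S.Γ

/-- Basic `k`-step nilsequences. -/
def Basic (k : ℕ) (φ : ℕ → ℂ) : Prop :=
  ∃ (S : NilSys k) (x : S.X) (F : S.X → ℂ), Continuous F ∧ ∀ n, φ n = F (S.g ^ n • x)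

/-- `k`-step nilsequences: uniform limits on `{1, 2, ...}` of basic ones. -/
def Nilseq (k : ℕ) (ψ : ℕ → ℂ) : Prop :=
  ∀ ε : ℝ, 0 < ε → ∃ φ, Basic k φ ∧ ∀ n, 1 ≤ n → ‖ψ n - φ n‖ ≤ ε

/-- `k`-step interpolation sets. -/
def Interp (k : ℕ) (A : Set ℕ) : Prop :=
  ∀ f : ℕ → ℂ, (∃ R : ℝ, ∀ n ∈ A, ‖f n‖ ≤ R) → ∃ ψ, Nilseq k ψ ∧ ∀ n ∈ A, ψ n = f n

/-- An inverse sequence of `k`-step nilsystems with factor maps. -/
structure InvSeq (k : ℕ) where
  S : ℕ → NilSys k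
  p : ∀ i, (S (i + 1)).X → (S i).X
  cont : ∀ i, Continuous (p i)
  surj : ∀ i, Function.Surjective (p i)
  equi : ∀ i y, p i ((S (i + 1)).g • y) = (S i).g • p i y

/-- The inverse limit space (with the subspace topology of the product). -/
abbrev InvSeq.X {k : ℕ} (L : InvSeq k) : Type :=
  {y : ∀ i, (L.S i).X // ∀ i, L.p i (y (i + 1)) = y i}

/-- The transformation of the inverse limit. -/
def InvSeq.T {k : ℕ} (L : InvSeq k) (y : L.X) : L.X :=
  ⟨fun i => (L.S i).g • y.1 i, fun i => by rw [L.equi, y.2]⟩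

/-- Interpolation sets for the class of inverse limits of `k`-step nilsystems. -/
def InterpLim (k : ℕ) (A : Set ℕ) : Prop :=
  ∀ f : ℕ → ℂ, (∃ R : ℝ, ∀ n ∈ A, ‖f n‖ ≤ R) →
    ∃ (L : InvSeq k) (x : L.X) (F : L.X → ℂ), Continuous F ∧ ∀ n ∈ A, F (L.T^[n] x) = f n

end Pool.Agent.H.MP_1b26ca_an
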