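import Pool.Agent.H.MP_1b26ca_an.D
import Pool.Agent.H.MP_1b26ca_an.Defs

namespace Pool.Agent.H.MP_1b26ca_an
open Function Topology Filter
open scoped Manifold ContDiff

lemma exists_N (k M : ℕ) : ∃ N : ℕ, M * (N + 1) ^ k < (M + 1) * N ^ k := by
  have h1 : Tendsto (fun N : ℕ => (M : ℝ) * (1 + (N : ℝ)⁻¹) ^ k) atTop (𝓝 (M * (1 + 0) ^ k)) :=
    ((tendsto_inv_atTop_nhds_zero_nat.const_add 1).pow k).const_mul _
  obtain ⟨N, hN, h2⟩ := ((eventually_gt_atTop 0).and
    (h1.eventually (gt_mem_nhds (show (M : ℝ) * (1 + 0) ^ k < M + 1 by simp)))).exists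
  refine ⟨N, ?_⟩
  have h3 : (0 : ℝ) < N := by exact_mod_cast hN
  have := mul_lt_mul_of_pos_right h2 (pow_pos h3 k)
  rw [mul_assoc, ← mul_pow, add_mul, inv_mul_cancel₀ h3.ne', one_mul] at this
  exact_mod_cast this

lemma neg_comb (k : ℕ) (a : Fin (k + 1) → ℕ → ℕ)
    (inj : Injective fun j : Fin (k + 1) → ℕ => ∑ l, a l (j l)) :
    ∃ f : ℕ → ℂ, (∀ n, ‖f n‖ ≤ 1) ∧ ∀ (C : Type) [Finite C] (col : ℕ → C),
      ∃ p q : Fin (k + 1) → Bool → ℕ, (∀ w : Fin (k + 1) → Bool, w ≠ (fun _ => true) →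
        col (∑ l, p l (w l)) = col (∑ l, q l (w l))) ∧
      (∑ l, p l true) ∈ Set.range (fun j : Fin (k + 1) → ℕ => ∑ l, a l (j l)) ∧
      (∑ l, q l true) ∈ Set.range (fun j : Fin (k + 1) → ℕ => ∑ l, a l (j l)) ∧
      ‖f (∑ l, p l true) - f (∑ l, q l true)‖ = 1 := by
  classical
  obtain ⟨dec, hdec⟩ := exists_surjective_nat (Finset (Fin k → ℕ))
  let f : ℕ → ℂ := fun n =>
    if ∃ j : Fin (k + 1) → ℕ, ∑ l, a l (j l) = n ∧ Fin.tail j ∈ dec (j 0) then 1 else 0
  have hf : ∀ j : Fin (k + 1) → ℕ, f (∑ l, a l (j l)) = if Fin.tail j ∈ dec (j 0) then 1 else 0 :=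
    fun j => if_congr ⟨fun ⟨j', h1, h2⟩ => inj h1 ▸ h2, fun h => ⟨j, rfl, h⟩⟩ rfl rfl
  refine ⟨f, fun n => by simp only [f]; split_ifs <;> simp, fun C _ col => ?_⟩
  haveI := Fintype.ofFinite C
  obtain ⟨N, hN⟩ := exists_N k (Fintype.card C)
  let P := {j : Fin k → Fin (N + 1) // ∀ l, j l ≠ 0}
  let D := {j : Fin k → Fin (N + 1) // ¬ ∀ l, j l ≠ 0}
  have cP : Fintype.card P = N ^ k := by
    rw [Fintype.card_congr (Equiv.subtypePiEquivPi (p := fun _ (x : Fin (N + 1)) => x ≠ 0))]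
    simp
  have cD : Fintype.card D + N ^ k = (N + 1) ^ k := by
    rw [Fintype.card_subtype_compl, ← cP, Nat.sub_add_cancel (Fintype.card_subtype_le _)]
    simp
  let v : P → Fin k → ℕ := fun j l => j.1 l
  have hv : Injective v := fun j j' h => Subtype.ext (funext fun l => Fin.ext (congrFun h l))
  let idx : Finset P → ℕ := fun S => surjInv hdec (S.image v)
  let prof : Finset P → D → C := fun S j =>
    col (∑ l, a l ((Fin.cons (idx S) (fun l => j.1 l) : Fin (k + 1) → ℕ) l))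
  obtain ⟨S, S', hne, e⟩ := Fintype.exists_ne_map_eq_of_card_lt prof (by
    rw [Fintype.card_fun, Fintype.card_finset, cP]
    calc _ ≤ (2 ^ Fintype.card C) ^ Fintype.card D :=
          Nat.pow_le_pow_left Nat.lt_two_pow_self.le _
      _ < _ := by
          rw [← pow_mul]
          apply Nat.pow_lt_pow_right (by norm_num)
          rw [← cD] at hN
          nlinarith)
  obtain ⟨j, hj⟩ : ∃ j, ¬ (j ∈ S ↔ j ∈ S') := by
    by_contra h
    exact hne (Finset.ext (by simpa using h))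
  refine ⟨fun l b => a l ((Fin.cons (bif b then idx S else idx S')
      (fun l => bif b then j.1 l else 0) : Fin (k + 1) → ℕ) l),
    fun l b => a l ((Fin.cons (idx S') (fun l => bif b then j.1 l else 0) : Fin (k + 1) → ℕ) l),
    fun w hw => ?_, ⟨_, rfl⟩, ⟨_, rfl⟩, ?_⟩
  · simp only [Fin.sum_univ_succ, Fin.cons_zero, Fin.cons_succ]
    rcases h0 : w 0 with _ | _
    · rfl
    · have := congrFun e ⟨fun l => bif w l.succ then j.1 l else 0, fun h => hw (funext fun l => by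
        refine Fin.cases h0 (fun l => ?_) l
        have := h l
        rcases h1 : w l.succ with _ | _
        · simp [h1] at this
        · rfl)⟩
      simp only [prof, Fin.sum_univ_succ, Fin.cons_zero, Fin.cons_succ, Bool.apply_cond,
        Fin.val_zero] at this
      simpa only [Bool.apply_cond, cond_true] using this
  · rw [hf, hf]
    have h1 : ∀ T : Finset P, v j ∈ dec (idx T) ↔ j ∈ T := fun T => by
      simp only [idx, surjInv_eq]
      exact hv.mem_finset_image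
    simp only [Fin.tail_cons, Fin.cons_zero, cond_true]
    rw [if_congr (h1 S) rfl rfl, if_congr (h1 S') rfl rfl]
    by_cases h2 : j ∈ S <;> by_cases h3 : j ∈ S' <;> simp_all

instance {k : ℕ} (S : NilSys k) : IsTopologicalGroup S.G :=
  letI := S.nE; letI := S.sE; letI := S.cs; letI := S.lie
  topologicalGroup_of_lieGroup 𝓘(ℝ, S.E) ∞

instance {k : ℕ} (S : NilSys k) : T2Space S.X :=
  haveI := S.t2; haveI := S.disc
  QuotientGroup.instT2Space

instance {k : ℕ} (S : NilSys k) : CompactSpace S.X := S.cpt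

theorem NilSys.cube {k : ℕ} (S : NilSys k) (x : S.X) (O : Set (S.X × S.X)) (hO : IsOpen O)
    (hd : ∀ x, (x, x) ∈ O) :
    ∃ (C : Type) (_ : Finite C) (col : ℕ → C), ∀ p q : Fin (k + 1) → Bool → ℕ,
      (∀ w : Fin (k + 1) → Bool, w ≠ (fun _ => true) →
        col (∑ l, p l (w l)) = col (∑ l, q l (w l))) →
      (S.g ^ (∑ l, p l true) • x, S.g ^ (∑ l, q l true) • x) ∈ O := by
  letI := S.nE; letI := S.sE; letI := S.cs; letI := S.lie; haveI := S.fE
  haveI := S.t2; haveI := S.disc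
  haveI : ProperSpace S.E := FiniteDimensional.proper_real S.E
  haveI := ChartedSpace.locallyCompactSpace S.E S.G
  haveI := ChartedSpace.locallyConnectedSpace S.E S.G
  exact nil_cube (lie_pow (E := S.E)) k S.nil S.Γ S.g x O hO hd

theorem not_interp (k : ℕ) (a : Fin (k + 1) → ℕ → ℕ)
    (inj : Injective fun j : Fin (k + 1) → ℕ => ∑ l, a l (j l))
    (pos : ∀ n ∈ Set.range (fun j : Fin (k + 1) → ℕ => ∑ l, a l (j l)), 1 ≤ n) :
    ¬ Interp k (Set.range fun j : Fin (k + 1) → ℕ => ∑ l, a l (j l)) := by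
  intro h
  obtain ⟨f, hf, key⟩ := neg_comb k a inj
  obtain ⟨ψ, hψ, e⟩ := h f ⟨1, fun n _ => hf n⟩
  obtain ⟨φ, ⟨S, x, F, hF, eF⟩, hφ⟩ := hψ (1 / 4) (by norm_num)
  obtain ⟨C, _, col, hcol⟩ := S.cube x {z | ‖F z.1 - F z.2‖ < 1 / 4}
    (isOpen_lt (by fun_prop) continuous_const) (by simp)
  obtain ⟨p, q, h1, h2, h3, h4⟩ := key C col
  have h5 := hcol p q h1
  simp only [Set.mem_setOf_eq, ← eF] at h5
  have h6 := hφ _ (pos _ h2)
  have h7 := hφ _ (pos _ h3)
  rw [e _ h2] at h6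
  rw [e _ h3, norm_sub_rev] at h7
  have := norm_sub_le_norm_sub_add_norm_sub (f (∑ l, p l true)) (φ (∑ l, p l true))
    (f (∑ l, q l true))
  have := norm_sub_le_norm_sub_add_norm_sub (φ (∑ l, p l true)) (φ (∑ l, q l true))
    (f (∑ l, q l true))
  linarith

lemma InvSeq.iter {k : ℕ} (L : InvSeq k) (x : L.X) (n i : ℕ) :
    (L.T^[n] x).1 i = (L.S i).g ^ n • x.1 i := by
  induction n with
  | zero => simp
  | succ n ih => rw [iterate_succ_apply', pow_succ', mul_smul, ← ih]; rfl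

theorem not_interpLim (k : ℕ) (a : Fin (k + 1) → ℕ → ℕ)
    (inj : Injective fun j : Fin (k + 1) → ℕ => ∑ l, a l (j l)) :
    ¬ InterpLim k (Set.range fun j : Fin (k + 1) → ℕ => ∑ l, a l (j l)) := by
  intro h
  obtain ⟨f, hf, key⟩ := neg_comb k a inj
  obtain ⟨L, x, F, hF, e⟩ := h f ⟨1, fun n _ => hf n⟩
  haveI : CompactSpace L.X := isCompact_iff_compactSpace.1 (IsClosed.isCompact (by
    show IsClosed {y : ∀ i, (L.S i).X | ∀ i, L.p i (y (i + 1)) = y i}
    rw [Set.setOf_forall]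
    exact isClosed_iInter fun i => isClosed_eq ((L.cont i).comp (continuous_apply _))
      (continuous_apply _)))
  have c0 : ∀ i, Continuous fun y : L.X => y.1 i := fun i =>
    (continuous_apply i).comp continuous_subtype_val
  have c1 : ∀ i, Continuous fun z : L.X × L.X => z.1.1 i := fun i => (c0 i).comp continuous_fst
  have c2 : ∀ i, Continuous fun z : L.X × L.X => z.2.1 i := fun i => (c0 i).comp continuous_snd
  let B : Set (L.X × L.X) := {z | 1 ≤ ‖F z.1 - F z.2‖}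
  have hB : IsClosed B := isClosed_le continuous_const (by fun_prop)
  obtain ⟨i, hi⟩ : ∃ i, ∀ z ∈ B, z.1.1 i ≠ z.2.1 i := by
    by_contra hc
    push Not at hc
    obtain ⟨z, hz⟩ := IsCompact.nonempty_iInter_of_sequence_nonempty_isCompact_isClosed
      (fun i => B ∩ {z | z.1.1 i = z.2.1 i})
      (fun i z hz => ⟨hz.1, by
        have := congrArg (L.p i) hz.2
        rwa [z.1.2, z.2.2] at this⟩) hc
      (hB.inter (isClosed_eq (c1 0) (c2 0))).isCompact
      (fun i => hB.inter (isClosed_eq (c1 i) (c2 i)))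
    rw [Set.mem_iInter] at hz
    have h1 : z.1 = z.2 := Subtype.ext (funext fun i => (hz i).2)
    have h2 : 1 ≤ ‖F z.1 - F z.2‖ := (hz 0).1
    rw [h1] at h2
    norm_num at h2
  obtain ⟨C, _, col, hcol⟩ := (L.S i).cube (x.1 i) ((fun z => (z.1.1 i, z.2.1 i)) '' B)ᶜ
    (hB.isCompact.image ((c1 i).prodMk (c2 i))).isClosed.isOpen_compl (by
      rintro y ⟨z, hz, ez⟩
      exact hi z hz ((congrArg Prod.fst ez).trans (congrArg Prod.snd ez).symm))
  obtain ⟨p, q, h1, h2, h3, h4⟩ := key C col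
  refine hcol p q h1 ⟨(L.T^[∑ l, p l true] x, L.T^[∑ l, q l true] x), ?_, ?_⟩
  · show 1 ≤ ‖F _ - F _‖
    rw [e _ h2, e _ h3, h4]
  · simp only [L.iter]

end Pool.Agent.H.MP_1b26ca_an
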