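import Pool.Agent.H.MP_1b26ca_an.E

namespace Pool.Agent.H.MP_1b26ca_an
open Function Topology Filter
open scoped Manifold ContDiff commutatorElement

variable {k : ℕ}

def NN (k : ℕ) : Module.End ℝ (Fin (k + 1) → ℝ) where
  toFun v := Fin.cons 0 (Fin.init v)
  map_add' v w := funext fun j => Fin.cases (by simp) (fun j => by simp [Fin.init]) j
  map_smul' c v := funext fun j => Fin.cases (by simp) (fun j => by simp [Fin.init]) j

def FF (k r : ℕ) : AddSubgroup (Fin (k + 1) → ℝ) where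
  carrier := {v | ∀ j : Fin (k + 1), j.1 < r → v j = 0}
  zero_mem' _ _ := rfl
  add_mem' ha hb j hj := by simp [ha j hj, hb j hj]
  neg_mem' ha j hj := by simp [ha j hj]

lemma NN_FF {r : ℕ} {v : Fin (k + 1) → ℝ} (h : v ∈ FF k r) : NN k v ∈ FF k (r + 1) :=
  fun j => Fin.cases (fun _ => rfl) (fun j hj => h j.castSucc (by simpa using hj)) j

lemma FF_top {v : Fin (k + 1) → ℝ} (h : v ∈ FF k (k + 1)) : v = 0 := funext fun j => h j j.2

lemma FF_anti {r : ℕ} {v : Fin (k + 1) → ℝ} (h : v ∈ FF k (r + 1)) : v ∈ FF k r :=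
  fun j hj => h j (by omega)

lemma NN_nil : (-NN k) ^ (k + 1) = 0 := by
  have : ∀ r v, ((-NN k) ^ r) v ∈ FF k r := by
    intro r v
    induction r with
    | zero => exact fun _ h => absurd h (by simp)
    | succ r ih => rw [pow_succ']; exact neg_mem (NN_FF ih)
  exact LinearMap.ext fun v => FF_top (this _ v)

noncomputable def uu (k : ℕ) : (Module.End ℝ (Fin (k + 1) → ℝ))ˣ :=
  (IsNilpotent.isUnit_one_sub ⟨_, NN_nil (k := k)⟩).unit

noncomputable def tt (k : ℕ) (m : ℤ) : Module.End ℝ (Fin (k + 1) → ℝ) := ↑(uu k ^ m)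

lemma tt_add (m n : ℤ) (v : Fin (k + 1) → ℝ) : tt k (m + n) v = tt k m (tt k n v) := by
  simp [tt, zpow_add]

@[simp] lemma tt_zero (v : Fin (k + 1) → ℝ) : tt k 0 v = v := by simp [tt]

lemma tt_one (v : Fin (k + 1) → ℝ) : tt k 1 v = v + NN k v := by simp [tt, uu]

lemma tt_neg_one (A : AddSubgroup (Fin (k + 1) → ℝ)) (hA : ∀ v ∈ A, NN k v ∈ A) {v : Fin (k + 1) → ℝ}
    (hv : v ∈ A) : tt k (-1) v ∈ A := by
  have e : tt k (-1) v + NN k (tt k (-1) v) = v := by rw [← tt_one, ← tt_add]; simp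
  have h1 : ∀ r, ((-NN k) ^ r) v ∈ A := by
    intro r
    induction r with
    | zero => exact hv
    | succ r ih => rw [pow_succ']; exact neg_mem (hA _ ih)
  have h2 : ∀ r, tt k (-1) v - ((-NN k) ^ r) (tt k (-1) v) ∈ A := by
    intro r
    induction r with
    | zero => simp
    | succ r ih =>
      have := add_mem ih (h1 r)
      have e2 := congrArg ((-NN k) ^ r) e
      rw [← e2, map_add] at this
      rw [pow_succ]
      convert this using 1
      simp [sub_eq_add_neg]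
  simpa [NN_nil] using h2 (k + 1)

lemma tt_mem (A : AddSubgroup (Fin (k + 1) → ℝ)) (hA : ∀ v ∈ A, NN k v ∈ A) (m : ℤ) :
    ∀ v ∈ A, tt k m v ∈ A := by
  induction m using Int.induction_on with
  | zero => simp
  | succ m ih => exact fun v hv => by rw [tt_add, tt_one]; exact ih _ (add_mem hv (hA v hv))
  | pred m ih => exact fun v hv => by rw [sub_eq_add_neg, tt_add]; exact ih _ (tt_neg_one A hA hv)

lemma tt_FF {r : ℕ} (m : ℤ) : ∀ v ∈ FF k r, tt k m v - v ∈ FF k (r + 1) := by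
  have hA : ∀ v ∈ FF k r, NN k v ∈ FF k r := fun v hv => FF_anti (NN_FF hv)
  induction m using Int.induction_on with
  | zero => simp
  | succ m ih =>
    intro v hv
    have := add_mem (ih _ (add_mem hv (hA v hv))) (NN_FF hv)
    rw [tt_add, tt_one]
    convert this using 1
    abel
  | pred m ih =>
    intro v hv
    have h1 := tt_neg_one _ hA hv
    have e : tt k (-1) v + NN k (tt k (-1) v) = v := by rw [← tt_one, ← tt_add]; simp
    have := sub_mem (ih _ h1) (NN_FF h1)
    rw [sub_eq_add_neg _ (1 : ℤ), tt_add]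
    convert this using 1
    rw [sub_sub, e]

def ZZ (k : ℕ) : AddSubgroup (Fin (k + 1) → ℝ) :=
  AddSubgroup.pi Set.univ (fun _ => AddSubgroup.zmultiples (1 : ℝ))

lemma tt_ZZ (m : ℤ) : ∀ v ∈ ZZ k, tt k m v ∈ ZZ k :=
  tt_mem _ (fun _ hv j _ => Fin.cases (AddSubgroup.zero_mem _) (fun j => hv j.castSucc trivial) j) m

/-- the group -/
def GG (ι : Type) (k : ℕ) : Type := ℤ × (ι → Fin (k + 1) → ℝ)

variable {ι : Type}

noncomputable instance : Mul (GG ι k) :=
  ⟨fun p q => (p.1 + q.1, fun i => p.2 i + tt k p.1 (q.2 i))⟩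
instance : One (GG ι k) := ⟨(0, 0)⟩
noncomputable instance : Inv (GG ι k) := ⟨fun p => (-p.1, fun i => -tt k (-p.1) (p.2 i))⟩

@[simp] lemma mul_1 (p q : GG ι k) : (p * q).1 = p.1 + q.1 := rfl
@[simp] lemma mul_2 (p q : GG ι k) (i : ι) : (p * q).2 i = p.2 i + tt k p.1 (q.2 i) := rfl
@[simp] lemma one_1 : (1 : GG ι k).1 = 0 := rfl
@[simp] lemma one_2 (i : ι) : (1 : GG ι k).2 i = 0 := rfl
@[simp] lemma inv_1 (p : GG ι k) : (p⁻¹).1 = -p.1 := rfl
@[simp] lemma inv_2 (p : GG ι k) (i : ι) : (p⁻¹).2 i = -tt k (-p.1) (p.2 i) := rfl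

lemma GG.ext' {p q : GG ι k} (h1 : p.1 = q.1) (h2 : ∀ i, p.2 i = q.2 i) : p = q :=
  Prod.ext h1 (funext h2)

noncomputable instance : Group (GG ι k) := Group.ofLeftAxioms
  (fun a b c => GG.ext' (by simp [add_assoc]) (fun i => by simp [tt_add, add_assoc]))
  (fun a => GG.ext' (by simp) (fun i => by simp))
  (fun a => GG.ext' (by simp) (fun i => by simp))

instance : TopologicalSpace (GG ι k) := inferInstanceAs (TopologicalSpace (ℤ × _))
instance : T2Space (GG ι k) := inferInstanceAs (T2Space (ℤ × _))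
instance [Fintype ι] : SecondCountableTopology (GG ι k) :=
  inferInstanceAs (SecondCountableTopology (ℤ × _))

def ch (ι : Type) (k : ℕ) (m : ℤ) : OpenPartialHomeomorph (GG ι k) (ι → Fin (k + 1) → ℝ) where
  toFun p := p.2
  invFun v := (m, v)
  source := {p | p.1 = m}
  target := Set.univ
  map_source' _ _ := trivial
  map_target' _ _ := rfl
  left_inv' _ h := Prod.ext h.symm rfl
  right_inv' _ _ := rfl
  open_source := (isOpen_discrete {m}).preimage continuous_fst
  open_target := isOpen_univ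
  continuousOn_toFun := continuous_snd.continuousOn
  continuousOn_invFun := (Continuous.prodMk_right m).continuousOn

instance : ChartedSpace (ι → Fin (k + 1) → ℝ) (GG ι k) where
  atlas := Set.range (ch ι k)
  chartAt p := ch ι k p.1
  mem_chart_source _ := rfl
  chart_mem_atlas _ := ⟨_, rfl⟩

variable [Fintype ι]

lemma cd_tt (m : ℤ) : ContDiff ℝ ∞ (fun (v : ι → Fin (k + 1) → ℝ) i => tt k m (v i)) :=
  contDiff_pi.2 fun i => (LinearMap.toContinuousLinearMap (tt k m)).contDiff.comp (contDiff_apply _ _ i)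

lemma c_tt : Continuous (fun (p : ℤ × (ι → Fin (k + 1) → ℝ)) i => tt k p.1 (p.2 i)) :=
  continuous_prod_of_discrete_left.2 fun m => (cd_tt m).continuous

instance : IsTopologicalGroup (GG ι k) where
  continuous_mul := ((continuous_fst.comp continuous_fst).add
    (continuous_fst.comp continuous_snd)).prodMk ((continuous_snd.comp continuous_fst).add
      (c_tt.comp ((continuous_fst.comp continuous_fst).prodMk (continuous_snd.comp continuous_snd))))
  continuous_inv := continuous_fst.neg.prodMk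
    (c_tt.comp (continuous_fst.neg.prodMk continuous_snd)).neg

instance : IsManifold 𝓘(ℝ, ι → Fin (k + 1) → ℝ) ∞ (GG ι k) :=
  isManifold_of_contDiffOn _ _ _ (by
    rintro _ _ ⟨m, rfl⟩ ⟨n, rfl⟩
    exact contDiffOn_id)

instance : LieGroup 𝓘(ℝ, ι → Fin (k + 1) → ℝ) ∞ (GG ι k) where
  contMDiff_mul := fun p => contMDiffAt_iff.2 ⟨continuous_mul.continuousAt,
    (contDiff_fst.add ((cd_tt p.1.1).comp contDiff_snd)).contDiffAt.contDiffWithinAt⟩
  contMDiff_inv := fun p => contMDiffAt_iff.2 ⟨continuous_inv.continuousAt,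
    (cd_tt (-p.1)).neg.contDiffAt.contDiffWithinAt⟩

def WW (ι : Type) (k r : ℕ) : Subgroup (GG ι k) where
  carrier := {p | p.1 = 0 ∧ ∀ i, p.2 i ∈ FF k r}
  one_mem' := ⟨rfl, fun _ => zero_mem _⟩
  mul_mem' ha hb := ⟨by simp [ha.1, hb.1], fun i => by
    simpa [ha.1] using add_mem (ha.2 i) (hb.2 i)⟩
  inv_mem' ha := ⟨by simp [ha.1], fun i => by simpa [ha.1] using ha.2 i⟩

omit [Fintype ι] in
lemma comm_2 (p q : GG ι k) (i : ι) :
    (⁅p, q⁆).2 i = (tt k p.1 (q.2 i) - q.2 i) - (tt k q.1 (p.2 i) - p.2 i) := by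
  simp only [commutatorElement_def, mul_1, mul_2, inv_1, inv_2, map_neg, ← tt_add]
  rw [show p.1 + q.1 + -p.1 = q.1 by ring, add_neg_cancel, tt_zero]
  abel

omit [Fintype ι] in
lemma GG_nil : (⊤ : Subgroup (GG ι k)).lowerCentralSeries (k + 1) = ⊥ := by
  have : ∀ r, (⊤ : Subgroup (GG ι k)).lowerCentralSeries (r + 1) ≤ WW ι k (r + 1) := by
    intro r
    induction r with
    | zero =>
      refine Subgroup.commutator_le.2 fun p _ q _ => ⟨by simp [commutatorElement_def], fun i => ?_⟩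
      rw [comm_2]
      exact sub_mem (tt_FF _ _ (fun _ h => absurd h (by simp)))
        (tt_FF _ _ (fun _ h => absurd h (by simp)))
    | succ r ih =>
      refine Subgroup.commutator_le.2 fun p hp q _ => ⟨by simp [commutatorElement_def], fun i => ?_⟩
      rw [comm_2, (ih hp).1, tt_zero, sub_self]
      exact sub_mem (zero_mem _) (tt_FF _ _ ((ih hp).2 i))
  exact eq_bot_iff.2 fun p hp => GG.ext' (this k hp).1 (fun i => FF_top ((this k hp).2 i))

def Gam (ι : Type) (k : ℕ) : Subgroup (GG ι k) where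
  carrier := {p | ∀ i, p.2 i ∈ ZZ k}
  one_mem' _ := zero_mem _
  mul_mem' ha hb i := add_mem (ha i) (tt_ZZ _ _ (hb i))
  inv_mem' ha i := neg_mem (tt_ZZ _ _ (ha i))

lemma Gam_disc : DiscreteTopology (Gam ι k) := by
  apply discreteTopology_of_isOpen_singleton_one
  have : ({1} : Set (Gam ι k)) = {p | p.1.1 = 0} ∩ {p | ‖p.1.2‖ < 1} := by
    ext ⟨p, hp⟩
    constructor
    · intro h
      obtain rfl : p = 1 := congrArg Subtype.val h
      exact ⟨rfl, show ‖(0 : ι → Fin (k + 1) → ℝ)‖ < 1 by simp⟩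
    · rintro ⟨h1, h2⟩
      refine Subtype.ext (GG.ext' h1 fun i => funext fun j => ?_)
      obtain ⟨z, hz⟩ := hp i j trivial
      have h3 := ((norm_le_pi_norm (p.2 i) j).trans (norm_le_pi_norm p.2 i)).trans_lt h2
      simp only [zsmul_eq_mul, mul_one] at hz
      rw [← hz, Real.norm_eq_abs, ← Int.cast_abs, ← Int.cast_one, Int.cast_lt,
        Int.abs_lt_one_iff] at h3
      show p.2 i j = 0
      rw [← hz, h3, Int.cast_zero]
  rw [this]
  exact ((isOpen_discrete {0}).preimage (continuous_fst.comp continuous_subtype_val)).inter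
    (isOpen_lt (continuous_snd.comp continuous_subtype_val).norm continuous_const)

lemma Gam_cpt : CompactSpace (GG ι k ⧸ Gam ι k) := by
  refine ⟨?_⟩
  have h : IsCompact ((fun v : ι → Fin (k + 1) → ℝ => ((show GG ι k from (0, v)) : GG ι k ⧸ Gam ι k))
    '' Set.Icc 0 1) := isCompact_Icc.image
      (QuotientGroup.continuous_mk.comp (Continuous.prodMk_right (0 : ℤ)))
  refine h.of_isClosed_subset isClosed_univ fun y _ => ?_
  obtain ⟨p, rfl⟩ := QuotientGroup.mk_surjective y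
  refine ⟨fun i j => Int.fract (p.2 i j), ⟨fun i j => Int.fract_nonneg _,
    fun i j => (Int.fract_lt_one _).le⟩, QuotientGroup.eq.2 fun i j _ => ⟨⌊p.2 i j⌋, ?_⟩⟩
  show ⌊p.2 i j⌋ • (1 : ℝ) = (-tt k (-0) (fun j => Int.fract (p.2 i j)) + tt k (-0) (p.2 i)) j
  rw [neg_zero, tt_zero, tt_zero, zsmul_eq_mul, mul_one]
  exact (Int.self_sub_fract _).symm.trans (by rw [sub_eq_neg_add]; rfl)

noncomputable def gg (k : ℕ) (α : ι → ℝ) : GG ι k :=
  (1, fun i => Fin.cons (α i * (k + 1).factorial) 0)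

noncomputable def sys (k : ℕ) (α : ι → ℝ) : NilSys (k + 1) where
  E := ι → Fin (k + 1) → ℝ
  G := GG ι k
  nil := GG_nil
  Γ := Gam ι k
  disc := Gam_disc
  cpt := Gam_cpt
  g := gg k α

noncomputable def vec (k : ℕ) (α : ι → ℝ) (n : ℕ) : GG ι k :=
  (n, fun i j => α i * (fwdDiff 1)^[k - j] (fun x : ℝ => x ^ (k + 1)) n)

omit [Fintype ι] in
lemma orbit (α : ι → ℝ) (n : ℕ) : gg k α ^ n * vec k α 0 = vec k α n := by
  induction n with
  | zero => simp
  | succ n ih =>
    rw [pow_succ', mul_assoc, ih]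
    refine GG.ext' (by show 1 + (n : ℤ) = ((n + 1 : ℕ) : ℤ); push_cast; ring) fun i => ?_
    show Fin.cons (α i * (k + 1).factorial) 0 + tt k 1 _ = _
    rw [tt_one]
    have e : ∀ r, (fwdDiff 1)^[r] (fun x : ℝ => x ^ (k + 1)) ((n + 1 : ℕ) : ℝ) =
        (fwdDiff 1)^[r] (fun x : ℝ => x ^ (k + 1)) n +
          (fwdDiff 1)^[r + 1] (fun x : ℝ => x ^ (k + 1)) n := by
      intro r
      rw [iterate_succ_apply']
      simp [fwdDiff]
    funext j
    refine Fin.cases ?_ (fun j => ?_) j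
    · simp only [vec, e, NN, Pi.add_apply, Fin.cons_zero, LinearMap.coe_mk, AddHom.coe_mk,
        Fin.val_zero, Nat.sub_zero, fwdDiff_iter_eq_factorial]
      simp [mul_add, add_comm]
    · simp only [vec, e, NN, Pi.add_apply, Fin.cons_succ, LinearMap.coe_mk, AddHom.coe_mk,
        Fin.val_succ, Fin.init, Fin.val_castSucc]
      rw [show k - (j + 1) + 1 = k - j by omega]
      simp [mul_add]

noncomputable def F0 (x : ℝ) : ℝ := max (-1) (min 1 (2 * Real.cos (2 * Real.pi * x)))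

lemma F0_cont : Continuous F0 := by unfold F0; fun_prop

lemma F0_le (x : ℝ) : |F0 x| ≤ 1 :=
  abs_le.2 ⟨le_max_left _ _, max_le (by norm_num) (min_le_left _ _)⟩

lemma F0_int (x : ℝ) (z : ℤ) : F0 (x + z) = F0 x := by
  rw [F0, F0, mul_add, mul_comm (2 * Real.pi) (z : ℝ), Real.cos_add_int_mul_two_pi]

noncomputable def th (i : ι) (y : GG ι k ⧸ Gam ι k) : ℝ :=
  Quotient.liftOn' y (fun p : GG ι k => F0 (p.2 i (Fin.last k))) (fun p q h => by
    obtain ⟨z, hz⟩ := tt_ZZ p.1 _ (QuotientGroup.leftRel_apply.1 h i) (Fin.last k) trivial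
    have : q.2 i = p.2 i + tt k p.1 ((p⁻¹ * q).2 i) := by rw [← mul_2, mul_inv_cancel_left]
    rw [this, Pi.add_apply, ← hz]
    simp [F0_int])

omit [Fintype ι] in
lemma th_cont (i : ι) : Continuous (th (k := k) i) :=
  Continuous.quotient_liftOn' (F0_cont.comp ((continuous_apply _).comp
    ((continuous_apply i).comp continuous_snd))) _

omit [Fintype ι] in
lemma th_le (i : ι) (y : GG ι k ⧸ Gam ι k) : |th i y| ≤ 1 := by
  obtain ⟨p, rfl⟩ := QuotientGroup.mk_surjective y
  exact F0_le _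

omit [Fintype ι] in
lemma th_orbit (α : ι → ℝ) (i : ι) (n : ℕ) :
    th i (gg k α ^ n • (vec k α 0 : GG ι k ⧸ Gam ι k)) = F0 (α i * n ^ (k + 1)) := by
  show th i ((gg k α ^ n * vec k α 0 : GG ι k) : GG ι k ⧸ Gam ι k) = _
  rw [orbit]
  show F0 _ = _
  simp [vec]

end Pool.Agent.H.MP_1b26ca_an
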